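import Pool.Agent.Run7.h715.DS.Hier
import Pool.Agent.TH522.DG.Main

/-!
Rounding of the Sherali-Adams linear programs for projection games with fibres of at most `d`
elements.
-/

set_option autoImplicit false
set_option linter.unusedSectionVars false

namespace Run7.h715.DS

open Finset Pool.Agent.H647R3.UG Pool.Agent.H573R3.SL Pool.Agent.TH522.US Pool.Agent.TH522.DG

/-- the numbers of steps, of samples and of conditionings -/
theorem numz (n d : ℕ) (hd : 0 < d) (c l x : ℝ) (hc : 0 < c) (hc1 : c ≤ 1)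
    (hx : x = Real.log (1024 * d / c ^ 4) / l) (hl : Real.log (1024 * d / c ^ 4) ≤ l)
    (hln : l ≤ Real.log n) :
    ∃ S k : ℕ, 1 ≤ S ∧ 1 ≤ k ∧ (1 - l / (2 * Real.log n)) ^ (S + S) ≤ x ∧
      32 * (S : ℝ) ^ 2 ≤ (((k + 1 : ℕ) : ℝ) - 1) * ((c ^ 2 / 8 / 4) ^ 2 / d) ^ (2 * S) ∧
      1 ≤ k * (c ^ 2 / 8 / 2 * (((c ^ 2 / 8 / 4) ^ 2 / d) ^ 2 *
        ((((c ^ 2 / 8 / 4) ^ 2 / d) ^ (2 * S)) ^ 2 / 64 * (n : ℝ) ^ (-x)))) ∧
      8 ≤ (c / 2) ^ 2 * (((k + 1 : ℕ) : ℝ) - 1) ∧
      (2 * k + 3 : ℝ) ≤ (n : ℝ) ^ (14 * (x * Real.log (2 / x))) := by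
  have hd0 : (0 : ℝ) < d := by exact_mod_cast hd
  have hd1 : (1 : ℝ) ≤ d := by exact_mod_cast hd
  have hc2 : c ^ 2 ≤ 1 := pow_le_one₀ hc.le hc1
  have hc4 : c ^ 4 ≤ 1 := pow_le_one₀ hc.le hc1
  have hR : (1024 : ℝ) ≤ 1024 * d / c ^ 4 := by
    rw [le_div_iff₀ (by positivity)]
    nlinarith [pow_pos hc 4]
  set R : ℝ := 1024 * d / c ^ 4 with hRd
  have hR0 : 0 < R := by linarith
  set Λ := Real.log R with hΛ
  have hl2 := Real.log_two_gt_d9
  have hl2' := Real.log_two_lt_d9
  have hΛ10 : 10 * Real.log 2 ≤ Λ := by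
    have h1 : Real.log ((2 : ℝ) ^ 10) ≤ Real.log R :=
      Real.log_le_log (by norm_num) (by norm_num; linarith)
    rw [Real.log_pow] at h1
    push_cast at h1
    exact h1
  have hΛ1 : 0 < Λ := by linarith
  have hl0 : 0 < l := by linarith
  have hlog : 0 < Real.log n := by linarith
  have hn0 : (0 : ℝ) < n := by
    rcases Nat.eq_zero_or_pos n with h | h
    · rw [h] at hlog; simp at hlog
    · exact_mod_cast h
  have hx0 : 0 < x := by rw [hx]; positivity
  have hx1 : x ≤ 1 := by rw [hx, div_le_one hl0]; exact hl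
  have hxl : x * l = Λ := by rw [hx]; field_simp
  have hlogx : 0 ≤ Real.log (1 / x) := Real.log_nonneg (by rw [le_div_iff₀ hx0]; linarith)
  have hlog2 : Real.log (2 / x) = Real.log 2 + Real.log (1 / x) := by
    rw [← Real.log_mul (by norm_num) (by positivity)]
    congr 1
    ring
  set y : ℝ := Real.log (1 / x) / (2 * (l / (2 * Real.log n))) with hy
  have hy0 : 0 ≤ y := by positivity
  have hyl : y = Real.log (1 / x) * Real.log n / l := by
    rw [hy]; field_simp
  have hΛy : Λ * y = x * Real.log (1 / x) * Real.log n := by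
    rw [hyl, ← hxl]; field_simp
  obtain ⟨S, hS⟩ : ∃ S : ℕ, S = ⌊y⌋₊ + 1 := ⟨_, rfl⟩
  have hS1 : 1 ≤ S := by omega
  have hS2 : y < S := by
    rw [hS]; push_cast; exact Nat.lt_floor_add_one y
  have hS3 : (S : ℝ) ≤ y + 1 := by
    rw [hS]; push_cast
    have := Nat.floor_le hy0
    linarith
  have hS0 : (0 : ℝ) < S := by exact_mod_cast hS1
  -- the number of steps
  have hκ0 : 0 < l / (2 * Real.log n) := by positivity
  have hκ1 : l / (2 * Real.log n) < 1 := by
    rw [div_lt_one (by positivity)]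
    linarith
  have hA : (1 - l / (2 * Real.log n)) ^ (S + S) ≤ x := by
    have h1 : 1 - l / (2 * Real.log n) ≤ Real.exp (-(l / (2 * Real.log n))) := by
      have := Real.add_one_le_exp (-(l / (2 * Real.log n)))
      linarith
    calc (1 - l / (2 * Real.log n)) ^ (S + S) ≤ Real.exp (-(l / (2 * Real.log n))) ^ (S + S) :=
          pow_le_pow_left₀ (by linarith) h1 _
      _ = Real.exp (((S + S : ℕ) : ℝ) * -(l / (2 * Real.log n))) := by rw [Real.exp_nat_mul]
      _ ≤ Real.exp (-Real.log (1 / x)) := by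
          apply Real.exp_le_exp.2
          push_cast
          have h2 : y * (2 * (l / (2 * Real.log n))) = Real.log (1 / x) := by
            rw [hy]; field_simp
          have h3 : y * (2 * (l / (2 * Real.log n))) ≤ S * (2 * (l / (2 * Real.log n))) :=
            mul_le_mul_of_nonneg_right hS2.le (by positivity)
          linarith
      _ = x := by
          rw [one_div, Real.log_inv, neg_neg, Real.exp_log hx0]
  -- the local correlation
  have e1 : (c ^ 2 / 8 / 4) ^ 2 / d = R⁻¹ := by
    rw [hRd]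
    field_simp
    ring
  have e4 : R⁻¹ = Real.exp (-Λ) := by rw [Real.exp_neg, hΛ, Real.exp_log hR0]
  have eR : R = Real.exp Λ := by rw [hΛ, Real.exp_log hR0]
  -- the number of samples
  set P : ℝ := Real.exp (13 * (x * Real.log (2 / x)) * Real.log n) with hP
  obtain ⟨k, hk⟩ : ∃ k : ℕ, k = ⌈P⌉₊ := ⟨_, rfl⟩
  have hPk : P ≤ k := by rw [hk]; exact Nat.le_ceil _
  have hP0 : 0 < P := Real.exp_pos _
  have hkP : (k : ℝ) < P + 1 := by rw [hk]; exact Nat.ceil_lt_add_one hP0.le
  have h4 : Λ ≤ x * Real.log n := by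
    rw [← hxl]
    exact mul_le_mul_of_nonneg_left hln hx0.le
  have h5 : 0 ≤ x * Real.log n := by positivity
  have h6 : 0 ≤ x * Real.log (1 / x) * Real.log n := by positivity
  have h13 : 9 * (x * Real.log n) + 4 * (x * Real.log (1 / x) * Real.log n) ≤
      13 * (x * Real.log (2 / x)) * Real.log n := by
    rw [hlog2]
    have h7 : 9 * (x * Real.log n) ≤ 13 * Real.log 2 * (x * Real.log n) :=
      mul_le_mul_of_nonneg_right (by linarith) h5
    have h8 : 13 * (x * (Real.log 2 + Real.log (1 / x))) * Real.log n =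
      13 * Real.log 2 * (x * Real.log n) + 13 * (x * Real.log (1 / x) * Real.log n) := by ring
    rw [h8]
    linarith
  have hSΛ : (S : ℝ) * Λ ≤ x * Real.log (1 / x) * Real.log n + Λ := by
    rw [← hΛy]
    have := mul_le_mul_of_nonneg_right hS3 hΛ1.le
    linarith
  have hk1 : 1 ≤ k := by
    rw [hk]
    exact Nat.one_le_iff_ne_zero.2 (Nat.pos_iff_ne_zero.1 (Nat.ceil_pos.2 hP0))
  have hk0 : (0 : ℝ) < k := by exact_mod_cast hk1
  refine ⟨S, k, hS1, hk1, hA, ?_, ?_, ?_, ?_⟩
  · rw [e1, e4, ← Real.exp_nat_mul]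
    push_cast
    have h7 : (S : ℝ) ^ 2 ≤ Real.exp (S * Λ) := by
      have h8 : (S : ℝ) ≤ Real.exp S := by
        have := Real.add_one_le_exp (S : ℝ)
        linarith
      calc (S : ℝ) ^ 2 ≤ Real.exp S ^ 2 := pow_le_pow_left₀ hS0.le h8 2
        _ = Real.exp ((2 : ℕ) * (S : ℝ)) := by rw [Real.exp_nat_mul]
        _ ≤ Real.exp (S * Λ) := by
            apply Real.exp_le_exp.2
            push_cast
            rw [mul_comm]
            exact mul_le_mul_of_nonneg_left (by linarith) hS0.le
    have h9 : (32 : ℝ) ≤ Real.exp Λ := by rw [← eR]; linarith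
    have h10 : 32 * (S : ℝ) ^ 2 ≤ Real.exp Λ * Real.exp (S * Λ) :=
      mul_le_mul h9 h7 (by positivity) (Real.exp_pos _).le
    refine h10.trans ?_
    calc Real.exp Λ * Real.exp (S * Λ) =
          Real.exp (Λ + 3 * (S * Λ)) * Real.exp (2 * S * -Λ) := by
          rw [← Real.exp_add, ← Real.exp_add]; congr 1; ring
      _ ≤ (k + 1 - 1) * Real.exp (2 * S * -Λ) := by
          refine mul_le_mul_of_nonneg_right ?_ (Real.exp_pos _).le
          rw [add_sub_cancel_right]
          refine le_trans ?_ hPk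
          rw [hP]
          apply Real.exp_le_exp.2
          refine le_trans ?_ h13
          linarith
  · rw [e1, e4]
    have h1 : Real.exp (-Λ) ≤ c ^ 2 / 8 / 2 := by
      rw [← e4, hRd, inv_div, div_le_iff₀ (by positivity)]
      have h2 : c ^ 4 ≤ c ^ 2 := by
        calc c ^ 4 = c ^ 2 * c ^ 2 := by ring
          _ ≤ c ^ 2 * 1 := mul_le_mul_of_nonneg_left hc2 (by positivity)
          _ = c ^ 2 := mul_one _
      nlinarith [pow_pos hc 2]
    have h2 : Real.exp (-Λ) ≤ 1 / 64 := by
      rw [← e4, inv_eq_one_div]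
      exact one_div_le_one_div_of_le (by norm_num) (by linarith)
    have h3 : (n : ℝ) ^ (-x) = Real.exp (-(x * Real.log n)) := by
      rw [Real.rpow_def_of_pos hn0]; congr 1; ring
    rw [h3, ← Real.exp_nat_mul, ← Real.exp_nat_mul, ← Real.exp_nat_mul]
    push_cast
    have h7 : P * (Real.exp (-Λ) * (Real.exp (2 * -Λ) * (Real.exp (2 * (2 * S * -Λ)) *
        Real.exp (-Λ) * Real.exp (-(x * Real.log n))))) ≤
        k * (c ^ 2 / 8 / 2 * (Real.exp (2 * -Λ) * (Real.exp (2 * (2 * S * -Λ)) / 64 *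
        Real.exp (-(x * Real.log n))))) := by
      refine mul_le_mul hPk ?_ (by positivity) hk0.le
      refine mul_le_mul h1 ?_ (by positivity) (by positivity)
      refine mul_le_mul_of_nonneg_left ?_ (Real.exp_pos _).le
      refine mul_le_mul_of_nonneg_right ?_ (Real.exp_pos _).le
      rw [div_eq_mul_one_div]
      exact mul_le_mul_of_nonneg_left h2 (Real.exp_pos _).le
    refine le_trans ?_ h7
    rw [hP, ← Real.exp_add, ← Real.exp_add, ← Real.exp_add, ← Real.exp_add, ← Real.exp_add]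
    apply Real.one_le_exp
    have h12 : 2 * (2 * (S : ℝ) * -Λ) = -(4 * (S * Λ)) := by ring
    rw [h12]
    linarith
  · push_cast
    rw [add_sub_cancel_right]
    have h1 : R ≤ k := by
      refine le_trans ?_ hPk
      rw [eR, hP]
      apply Real.exp_le_exp.2
      linarith
    have h2 : 32 / c ^ 2 ≤ R := by
      rw [hRd, div_le_div_iff₀ (by positivity) (by positivity)]
      have h3 : c ^ 4 ≤ c ^ 2 := by
        calc c ^ 4 = c ^ 2 * c ^ 2 := by ring
          _ ≤ c ^ 2 * 1 := mul_le_mul_of_nonneg_left hc2 (by positivity)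
          _ = c ^ 2 := mul_one _
      nlinarith [pow_pos hc 2]
    have h3 : 32 / c ^ 2 ≤ k := h2.trans h1
    rw [div_le_iff₀ (by positivity)] at h3
    have h7 : (c / 2) ^ 2 * (k : ℝ) = k * c ^ 2 / 4 := by ring
    rw [h7]
    linarith
  · have h1 : (n : ℝ) ^ (14 * (x * Real.log (2 / x))) =
        P * Real.exp (x * Real.log (2 / x) * Real.log n) := by
      rw [Real.rpow_def_of_pos hn0, hP, ← Real.exp_add]
      congr 1
      ring
    rw [h1]
    have h2 : (7 : ℝ) ≤ Real.exp (x * Real.log (2 / x) * Real.log n) := by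
      have h3 : 4 ≤ x * Real.log (2 / x) * Real.log n := by
        rw [hlog2]
        have h8 : Real.log 2 * (10 * Real.log 2) ≤ Real.log 2 * (x * Real.log n) :=
          mul_le_mul_of_nonneg_left (hΛ10.trans h4) (by linarith)
        have h9 : 4 ≤ Real.log 2 * (10 * Real.log 2) := by nlinarith
        have h10 : x * (Real.log 2 + Real.log (1 / x)) * Real.log n =
          Real.log 2 * (x * Real.log n) + x * Real.log (1 / x) * Real.log n := by ring
        rw [h10]
        linarith
      generalize x * Real.log (2 / x) * Real.log n = u at h3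
      have h4 := Real.quadratic_le_exp_of_nonneg (by linarith : 0 ≤ u)
      have h5 : (4 : ℝ) ^ 2 ≤ u ^ 2 := pow_le_pow_left₀ (by norm_num) h3 2
      linarith
    have h3 : (1 : ℝ) ≤ P := by
      rw [hP]
      apply Real.one_le_exp
      linarith
    have h9 := mul_le_mul_of_nonneg_left h2 hP0.le
    linarith

section
variable {V W A B E : Type} [Fintype V] [Fintype W] [Fintype E] [Fintype A] [Fintype B]
  [DecidableEq B]

/-- **rounding of the Sherali-Adams linear programs** -/
theorem corez (v : E → V) (w : E → W) (π : E → A → B) (d : ℕ)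
    (hfib : ∀ e, Fib d (π e)) (c l x : ℝ) (hc : 0 < c) (hc1 : c ≤ 1)
    (hx : x = Real.log (1024 * d / c ^ 4) / l) (hl0 : 0 < l)
    (hl : Real.log (1024 * d / c ^ 4) ≤ l)
    (hln : l ≤ Real.log (Fintype.card W)) (K : ℕ)
    (hK : (Fintype.card W : ℝ) ^ (14 * (x * Real.log (2 / x))) ≤ K)
    (L : ((W → A) × (V → B) → ℝ) →ₗ[ℝ] ℝ) (hL : SA2 K L)
    (hval : c * (Fintype.card E : ℝ) ≤ ∑ e, L (satE v w π e)) :
    ∃ (M : W → A) (N : V → B), c ^ 5 * Real.exp (-l) / 2 ^ 21 * (Fintype.card E : ℝ) ≤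
      ((univ.filter fun e => π e (M (w e)) = N (v e)).card : ℝ) := by
  classical
  have hne : Nonempty ((W → A) × (V → B)) := by
    by_contra hcon
    rw [not_nonempty_iff] at hcon
    have h1 := hL.one
    have h2 : (fun _ : (W → A) × (V → B) => (1 : ℝ)) = 0 := Subsingleton.elim _ _
    rw [h2, map_zero] at h1
    exact zero_ne_one h1
  obtain ⟨M0, N0⟩ := hne
  rcases Nat.eq_zero_or_pos (Fintype.card E) with hE | hE
  · refine ⟨M0, N0, ?_⟩
    rw [hE]
    simp
  have hE0 : (0 : ℝ) < Fintype.card E := by exact_mod_cast hE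
  obtain ⟨e0⟩ : Nonempty E := Fintype.card_pos_iff.1 hE
  have hA : Nonempty A := ⟨M0 (w e0)⟩
  have hB : Nonempty B := ⟨N0 (v e0)⟩
  set a0 : A := M0 (w e0) with ha0
  have hd : 0 < d := by
    have h1 := hfib e0 (π e0 a0)
    have h2 : 0 < (univ.filter fun a => π e0 a = π e0 a0).card :=
      card_pos.2 ⟨a0, by simp⟩
    omega
  have hlog : 0 < Real.log (Fintype.card W) := by linarith
  have hn : 0 < Fintype.card W := by
    rcases Nat.eq_zero_or_pos (Fintype.card W) with h | h
    · rw [h] at hlog; simp at hlog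
    · exact h
  have hn0 : (0 : ℝ) < Fintype.card W := by exact_mod_cast hn
  obtain ⟨S1, k, hS1, hk1, hS2, hNS, hk, hM8, hkK⟩ :=
    numz (Fintype.card W) d hd c l x hc hc1 hx hl hln
  have hkK' : 2 * k + 3 ≤ K := by
    have h1 : ((2 * k + 3 : ℕ) : ℝ) ≤ K := by
      push_cast
      exact hkK.trans hK
    exact_mod_cast h1
  have hLk : SA2 (k + ((k + 1) + 2)) L := hL.mono (by omega)
  have hLk2 : SA2 ((k + 1) + 1) L := hL.mono (by omega)
  have hx0 : 0 < x := by
    refine lt_of_lt_of_le ?_ hS2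
    refine pow_pos ?_ _
    have : l / (2 * Real.log (Fintype.card W)) < 1 := by
      rw [div_lt_one (by positivity)]
      linarith
    linarith
  have hx1 : x ≤ 1 := by rw [hx, div_le_one hl0]; exact hl
  have hsat0 : ∀ e, 0 ≤ L (satE v w π e) ∧ L (satE v w π e) ≤ 1 := by
    intro e
    have hdep : Dep2 {w e} {v e} (satE v w π e) := by
      intro z z' h1 h2
      unfold satE
      rw [h1 _ (mem_singleton_self _), h2 _ (mem_singleton_self _)]
    constructor
    · refine hLk2.nonneg {w e} {v e} (by simp) _ hdep fun z => ?_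
      unfold satE
      split_ifs <;> norm_num
    · have h1 : 0 ≤ L (fun z => 1 - satE v w π e z) := by
        refine hLk2.nonneg {w e} {v e} (by simp) _ (fun z z' h1 h2 => ?_) fun z => ?_
        · show 1 - satE v w π e z = 1 - satE v w π e z'
          rw [hdep z z' h1 h2]
        · unfold satE
          split_ifs <;> norm_num
      have h2 : (fun z => 1 - satE v w π e z) = (fun _ => (1 : ℝ)) - satE v w π e := rfl
      rw [h2, map_sub, hL.one] at h1
      linarith
  -- good edges
  set G : E → Prop := fun e => c / 2 ≤ L (satE v w π e) with hG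
  set ω : E → ℝ := fun e => if G e then (1 : ℝ) else 0 with hωd
  have hω : ∀ e, 0 ≤ ω e := fun e => by simp only [hωd]; split_ifs <;> norm_num
  have hgood : c / 2 * (Fintype.card E : ℝ) ≤ ∑ e, ω e := by
    have h1 : ∀ e, L (satE v w π e) ≤ c / 2 + ω e := by
      intro e
      simp only [hωd]
      by_cases h : G e
      · rw [if_pos h]
        have := (hsat0 e).2
        linarith
      · rw [if_neg h]
        simp only [hG, not_le] at h
        linarith
    have h2 := sum_le_sum fun e (_ : e ∈ (univ : Finset E)) => h1 e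
    rw [sum_add_distrib, sum_const, card_univ, nsmul_eq_mul] at h2
    linarith
  have hD : 0 < ∑ e, ω e := lt_of_lt_of_le (by positivity) hgood
  have hpair := pair_corrz (k + 1) (by omega) L hLk2 a0 v w π ω hω (c / 2) (by positivity) hM8
    (fun e he => by
    by_contra hcon
    have h1 : ω e = 0 := by
      simp only [hωd]
      rw [if_neg]
      exact hcon
    linarith)
  set s : E → W ⊕ V := fun e => Sum.inl (w e) with hs
  set t : E → W ⊕ V := fun e => Sum.inr (v e) with ht
  have hPL := pj_sa a0 (k + ((k + 1) + 2)) L hLk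
  have hκ0 : 0 < l / (2 * Real.log (Fintype.card W)) := by positivity
  have hκ1 : l / (2 * Real.log (Fintype.card W)) < 1 := by
    rw [div_lt_one (by positivity)]
    linarith
  have hβe : (Fintype.card W : ℝ) ^ (-(2 * (l / (2 * Real.log (Fintype.card W))))) =
      Real.exp (-l) := by
    rw [Real.rpow_def_of_pos hn0]
    congr 1
    field_simp
  set U : Finset (W ⊕ V) := univ.map Function.Embedding.inl with hU
  have hUc : U.card = Fintype.card W := by rw [hU, card_map, card_univ]
  have hsU : ∀ e, s e ∈ U := fun e => by simp [hs, hU]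
  have hcc : (c / 2) ^ 2 / 2 = c ^ 2 / 8 := by ring
  rw [hcc] at hpair
  have hcsq : c ^ 2 ≤ 1 := pow_le_one₀ hc.le hc1
  have hpart := fun (U0 : Finset (W ⊕ V)) (hU0 : U0 ⊆ U) =>
    part_roundz s t π d hd hfib ω hω hD (Fintype.card W) hn (l / (2 * Real.log (Fintype.card W))) x
      (c ^ 2 / 8) hκ0 hκ1 hx1 (by positivity) (by linarith) k (k + 1) S1 (by omega) hS1 hS2 hNS hk
      (pj a0 L) hPL hpair U0 (by rw [← hUc]; exact card_le_card hU0)
  rw [hβe] at hpart
  obtain ⟨X, Y, hXY⟩ := two_sided s t π ω hω ((c ^ 2 / 8) ^ 2 * Real.exp (-l) / 4096)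
    (by positivity) U hsU hpart (fun _ a => if a = a0 then 1 else 0)
    ⟨fun _ a => by beta_reduce; split_ifs <;> norm_num, fun _ => by simp⟩
  refine ⟨fun w' => X (Sum.inl w'), fun v' => Y (Sum.inr v'), ?_⟩
  have h1 : ∑ e, ω e * (if π e (X (s e)) = Y (t e) then 1 else 0) ≤
      ((univ.filter fun e => π e (X (Sum.inl (w e))) = Y (Sum.inr (v e))).card : ℝ) := by
    rw [card_filter]
    push_cast
    refine sum_le_sum fun e _ => ?_
    simp only [hωd, hs, ht]
    split_ifs <;> norm_num
  refine le_trans ?_ (hXY.trans h1)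
  have h2 : (c ^ 2 / 8) ^ 2 * Real.exp (-l) / 4096 * (c / 2 * (Fintype.card E : ℝ)) ≤
      (c ^ 2 / 8) ^ 2 * Real.exp (-l) / 4096 * ∑ e, ω e :=
    mul_le_mul_of_nonneg_left hgood (by positivity)
  have h3 : c ^ 5 * Real.exp (-l) / 2 ^ 21 * (Fintype.card E : ℝ) =
      (c ^ 2 / 8) ^ 2 * Real.exp (-l) / 4096 * (c / 2 * (Fintype.card E : ℝ)) / 4 := by
    ring
  rw [h3]
  linarith

end

end Run7.h715.DS
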