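import Pool.Agent.TH522.DG.Chain
import Pool.Agent.Run7.h881.SA.Samp
import Pool.Agent.Run7.h881.SA.Seq

/-!
Global correlation of a reversible chain with an `L^p` to `L^2` inequality, for a kernel which is
positive semidefinite on samples of `M` points only, and for a local correlation `r` which need not
be close to one.
-/

set_option autoImplicit false
set_option linter.unusedSectionVars false

namespace Run7.h715.DS

open Finset Pool.Agent.H647R3.UG Pool.Agent.H573R3.SL Pool.Agent.TH522.US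
open Run7.h881.SA (PsdM samp seq_lower)

section
variable {W : Type} [Fintype W] [DecidableEq W] {m : W → ℝ} {T : (W → ℝ) → (W → ℝ)}

/-- the kernel of the powers of the chain -/
noncomputable def Hk (m : W → ℝ) (T : (W → ℝ) → (W → ℝ)) (s : ℕ) (v u : W) : ℝ := (T^[s] (dl m v)) u

/-- correlation after `s` steps -/
noncomputable def co (m : W → ℝ) (T : (W → ℝ) → (W → ℝ)) (G : W → W → ℝ) (s : ℕ) : ℝ :=
  ∑ u, ∑ v, m u * m v * Hk m T s v u * G u v

theorem ip_dl' (hm : ∀ u, 0 < m u) (v : W) (f : W → ℝ) : ip m f (dl m v) = f v := by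
  unfold ip
  rw [sum_eq_single v]
  · unfold dl
    rw [if_pos rfl]
    have := (hm v).ne'
    field_simp
  · intro u _ hu
    unfold dl
    rw [if_neg hu, mul_zero]
  · intro h; exact absurd (mem_univ _) h

theorem hk_sym (h : IsOper m T) (s : ℕ) (u v : W) : Hk m T s v u = Hk m T s u v := by
  unfold Hk
  have h1 := move h (dl m v) (dl m u) s
  rw [ip_dl' h.pos] at h1
  rw [h1, OPX.ip_comm, ip_dl' h.pos]

theorem hk_nn (h : IsOper m T) (s : ℕ) (v u : W) : 0 ≤ Hk m T s v u := by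
  unfold Hk
  induction s generalizing u with
  | zero =>
    change 0 ≤ dl m v u
    unfold dl
    split_ifs
    · exact (div_pos one_pos (h.pos v)).le
    · exact le_rfl
  | succ s ih => rw [Function.iterate_succ_apply']; exact h.nn _ ih u

theorem hk_tot (h : IsOper m T) (s : ℕ) (v : W) : ∑ u, m u * Hk m T s v u = 1 := by
  unfold Hk
  induction s with
  | zero =>
    change ∑ u, m u * dl m v u = 1
    rw [sum_eq_single v]
    · unfold dl
      rw [if_pos rfl]
      have := (h.pos v).ne'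
      field_simp
    · intro u _ hu
      unfold dl
      rw [if_neg hu, mul_zero]
    · intro h; exact absurd (mem_univ _) h
  | succ s ih =>
    simp only [Function.iterate_succ_apply']
    rw [h.tot]
    exact ih

theorem hk_comp (h : IsOper m T) (i j : ℕ) (u v : W) :
    Hk m T (i + j) v u = ∑ x, m x * Hk m T i x u * Hk m T j x v := by
  unfold Hk
  rw [Function.iterate_add_apply, it_kernel h _ i u]
  refine sum_congr rfl fun x _ => ?_
  have h1 : (T^[j] (dl m v)) x = (T^[j] (dl m x)) v := hk_sym h j x v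
  rw [h1]
  ring

theorem co_zero (h : IsOper m T) (G : W → W → ℝ) : co m T G 0 = ∑ u, m u * G u u := by
  unfold co
  refine sum_congr rfl fun u _ => ?_
  rw [sum_eq_single u]
  · unfold Hk
    change m u * m u * dl m u u * G u u = _
    unfold dl
    rw [if_pos rfl]
    have := (h.pos u).ne'
    field_simp
  · intro v _ hv
    unfold Hk
    change m u * m v * dl m v u * G u v = 0
    unfold dl
    rw [if_neg hv.symm]
    ring
  · intro h; exact absurd (mem_univ _) h

theorem co_add (h : IsOper m T) (G : W → W → ℝ) (i j : ℕ) :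
    co m T G (i + j) = ∑ x, m x * ∑ u, ∑ v,
      (m u * Hk m T i x u) * (m v * Hk m T j x v) * G u v := by
  unfold co
  have h2 : ∀ u v, m u * m v * Hk m T (i + j) v u * G u v =
      ∑ x, m x * ((m u * Hk m T i x u) * (m v * Hk m T j x v) * G u v) := by
    intro u v
    rw [hk_comp h i j u v, mul_sum, sum_mul]
    exact sum_congr rfl fun x _ => by ring
  rw [sum_congr rfl fun u _ => sum_congr rfl fun v _ => h2 u v]
  simp only [mul_sum]
  calc ∑ u, ∑ v, ∑ x, m x * ((m u * Hk m T i x u) * (m v * Hk m T j x v) * G u v)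
      = ∑ u, ∑ x, ∑ v, m x * ((m u * Hk m T i x u) * (m v * Hk m T j x v) * G u v) :=
        sum_congr rfl fun u _ => sum_comm
    _ = _ := sum_comm

/-- **approximate convexity** of the correlations -/
theorem conv (h : IsOper m T) (G : W → W → ℝ) (M : ℕ) (hM : 2 ≤ M) (hG : PsdM M G)
    (hG0 : ∀ u, 0 ≤ G u u) (hGs : ∀ u v, G u v = G v u) (i j : ℕ) (α β : ℝ)
    (hα : 0 ≤ α) (hβ : 0 ≤ β) :
    0 ≤ α ^ 2 * (co m T G (i + i) + 2 * (co m T G 0 / (M - 1)))
      - 2 * α * β * co m T G (i + j)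
      + β ^ 2 * (co m T G (j + j) + 2 * (co m T G 0 / (M - 1))) := by
  have hM1 : (0 : ℝ) < (M : ℝ) - 1 := by
    have : (2 : ℝ) ≤ M := by exact_mod_cast hM
    linarith
  set F : W → W → ℝ := fun x u => m u * (α * Hk m T i x u - β * Hk m T j x u) with hF
  have hFabs : ∀ x u, |F x u| ≤ m u * (α * Hk m T i x u + β * Hk m T j x u) := by
    intro x u
    simp only [hF]
    rw [abs_mul, abs_of_pos (h.pos u)]
    refine mul_le_mul_of_nonneg_left ?_ (h.pos u).le
    have h1 : 0 ≤ α * Hk m T i x u := mul_nonneg hα (hk_nn h i x u)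
    have h2 : 0 ≤ β * Hk m T j x u := mul_nonneg hβ (hk_nn h j x u)
    rw [abs_le]
    constructor <;> linarith
  have hL1 : ∀ x, ∑ u, |F x u| ≤ α + β := by
    intro x
    refine (sum_le_sum fun u _ => hFabs x u).trans (le_of_eq ?_)
    calc ∑ u, m u * (α * Hk m T i x u + β * Hk m T j x u)
        = α * ∑ u, m u * Hk m T i x u + β * ∑ u, m u * Hk m T j x u := by
          rw [mul_sum, mul_sum, ← sum_add_distrib]
          exact sum_congr rfl fun u _ => by ring
      _ = α + β := by rw [hk_tot h, hk_tot h, mul_one, mul_one]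
  have hs := fun x => samp G M hM hG (F x)
  have hD0 : ∀ x, 0 ≤ ∑ u, |F x u| * G u u := fun x =>
    sum_nonneg fun u _ => mul_nonneg (abs_nonneg _) (hG0 u)
  have h1 : 0 ≤ ∑ x, m x * (((M : ℝ) - 1) * (∑ u, ∑ v, F x u * F x v * G u v)
      + (α + β) * ∑ u, |F x u| * G u u) := by
    refine sum_nonneg fun x _ => mul_nonneg (h.pos x).le ?_
    refine (hs x).trans (add_le_add le_rfl ?_)
    exact mul_le_mul_of_nonneg_right (hL1 x) (hD0 x)
  have h2 : ∑ x, m x * (∑ u, ∑ v, F x u * F x v * G u v) =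
      α ^ 2 * co m T G (i + i) - 2 * α * β * co m T G (i + j)
      + β ^ 2 * co m T G (j + j) := by
    have h4 : ∀ x, ∑ u, ∑ v, F x u * F x v * G u v =
        α ^ 2 * (∑ u, ∑ v, (m u * Hk m T i x u) * (m v * Hk m T i x v) * G u v)
        - 2 * α * β * (∑ u, ∑ v, (m u * Hk m T i x u) * (m v * Hk m T j x v) * G u v)
        + β ^ 2 * (∑ u, ∑ v, (m u * Hk m T j x u) * (m v * Hk m T j x v) * G u v) := by
      intro x
      have h5 : ∑ u, ∑ v, (m u * Hk m T j x u) * (m v * Hk m T i x v) * G u v =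
          ∑ u, ∑ v, (m u * Hk m T i x u) * (m v * Hk m T j x v) * G u v := by
        rw [sum_comm]
        refine sum_congr rfl fun u _ => sum_congr rfl fun v _ => ?_
        rw [hGs v u]; ring
      have h6 : ∑ u, ∑ v, F x u * F x v * G u v =
          α ^ 2 * (∑ u, ∑ v, (m u * Hk m T i x u) * (m v * Hk m T i x v) * G u v)
          - α * β * (∑ u, ∑ v, (m u * Hk m T i x u) * (m v * Hk m T j x v) * G u v)
          - α * β * (∑ u, ∑ v, (m u * Hk m T j x u) * (m v * Hk m T i x v) * G u v)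
          + β ^ 2 * (∑ u, ∑ v, (m u * Hk m T j x u) * (m v * Hk m T j x v) * G u v)
          := by
        simp only [hF, mul_sum]
        simp only [← sum_sub_distrib, ← sum_add_distrib]
        exact sum_congr rfl fun u _ => sum_congr rfl fun v _ => by ring
      rw [h6, h5]
      ring
    rw [co_add h G i i, co_add h G i j, co_add h G j j]
    simp only [h4]
    rw [mul_sum, mul_sum, mul_sum, ← sum_sub_distrib, ← sum_add_distrib]
    exact sum_congr rfl fun x _ => by ring
  have h3 : ∑ x, m x * ∑ u, |F x u| * G u u ≤ (α + β) * co m T G 0 := by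
    have h4 : ∀ x, m x * ∑ u, |F x u| * G u u ≤
        ∑ u, (m u * G u u) * (α * (m x * Hk m T i x u) + β * (m x * Hk m T j x u)) := by
      intro x
      rw [mul_sum]
      refine sum_le_sum fun u _ => ?_
      have h6 := mul_le_mul_of_nonneg_right (hFabs x u) (hG0 u)
      have h7 := mul_le_mul_of_nonneg_left h6 (h.pos x).le
      refine h7.trans (le_of_eq (by ring))
    refine (sum_le_sum fun x _ => h4 x).trans (le_of_eq ?_)
    rw [sum_comm, co_zero h, mul_sum]
    refine sum_congr rfl fun u _ => ?_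
    rw [← mul_sum, sum_add_distrib, ← mul_sum, ← mul_sum]
    have h5 : ∀ s, ∑ x, m x * Hk m T s x u = 1 := by
      intro s
      rw [← hk_tot h s u]
      exact sum_congr rfl fun x _ => by rw [hk_sym h]
    rw [h5, h5]
    ring
  have h4 : ∑ x, m x * (((M : ℝ) - 1) * (∑ u, ∑ v, F x u * F x v * G u v)
      + (α + β) * ∑ u, |F x u| * G u u) =
      ((M : ℝ) - 1) * (∑ x, m x * (∑ u, ∑ v, F x u * F x v * G u v)) +
      (α + β) * ∑ x, m x * ∑ u, |F x u| * G u u := by
    rw [mul_sum, mul_sum, ← sum_add_distrib]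
    exact sum_congr rfl fun x _ => by ring
  rw [h4, h2] at h1
  have h5 : 0 ≤ α + β := by linarith
  have h6 := mul_le_mul_of_nonneg_left h3 h5
  have htr : 0 ≤ co m T G 0 := by
    rw [co_zero h]
    exact sum_nonneg fun u _ => mul_nonneg (h.pos u).le (hG0 u)
  have h7 : (α + β) * ((α + β) * co m T G 0) ≤ (2 * α ^ 2 + 2 * β ^ 2) * co m T G 0 := by
    have : (α + β) * (α + β) ≤ 2 * α ^ 2 + 2 * β ^ 2 := by nlinarith [sq_nonneg (α - β)]
    rw [← mul_assoc]
    exact mul_le_mul_of_nonneg_right this htr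
  have h8 : 0 ≤ ((M : ℝ) - 1) * (α ^ 2 * co m T G (i + i) - 2 * α * β * co m T G (i + j)
      + β ^ 2 * co m T G (j + j)) + (2 * α ^ 2 + 2 * β ^ 2) * co m T G 0 := by linarith
  have h9 : ((M : ℝ) - 1) * (α ^ 2 * (co m T G (i + i) + 2 * (co m T G 0 / (M - 1)))
      - 2 * α * β * co m T G (i + j)
      + β ^ 2 * (co m T G (j + j) + 2 * (co m T G 0 / (M - 1)))) =
      ((M : ℝ) - 1) * (α ^ 2 * co m T G (i + i) - 2 * α * β * co m T G (i + j)
      + β ^ 2 * co m T G (j + j)) + (2 * α ^ 2 + 2 * β ^ 2) * co m T G 0 := by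
    field_simp
    ring
  rw [← h9] at h8
  exact nonneg_of_mul_nonneg_right h8 hM1

/-- the correlation after one step -/
theorem co_one (h : IsOper m T) (G : W → W → ℝ) :
    co m T G 1 = ∑ v, m v * (T fun u => G u v) v := by
  have h1 : ∀ v, ∑ u, m u * m v * Hk m T 1 v u * G u v = m v * (T fun u => G u v) v := by
    intro v
    have h2 : (T fun u => G u v) v = ip m (T fun u => G u v) (dl m v) := (ip_dl' h.pos v _).symm
    rw [h2, h.sym]
    unfold ip
    rw [mul_sum]
    refine sum_congr rfl fun u _ => ?_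
    unfold Hk
    simp only [Function.iterate_one]
    ring
  unfold co
  rw [sum_comm]
  exact sum_congr rfl fun v _ => h1 v

end

/-- global correlation, positive masses -/
theorem gcz {W : Type} [Fintype W] [DecidableEq W] {m : W → ℝ}
    {T : (W → ℝ) → (W → ℝ)} (h : IsOper m T) (κ r q : ℝ) (hκ : 0 < κ) (hκ1 : κ < 1)
    (hr : 0 < r) (hr1 : r ≤ 1) (hq1 : q ≤ 1)
    (hH : ∀ g : W → ℝ, (∀ u, 0 ≤ g u) → ip m g (T g) ≤
      (vol m univ) ^ (-κ) * (∑ u, m u * g u ^ (2 / (1 + κ))) ^ (1 + κ))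
    (G : W → W → ℝ) (hW : Nonempty W) (M : ℕ) (hM : 2 ≤ M) (hG : PsdM M G)
    (hG0 : ∀ u, 0 ≤ G u u) (hGs : ∀ u v, G u v = G v u) (S : ℕ) (hS1 : 1 ≤ S)
    (hS : (1 - κ) ^ (S + S) ≤ q) (hMS : 32 * (S : ℝ) ^ 2 ≤ ((M : ℝ) - 1) * r ^ (2 * S))
    (hpos : 0 < ∑ u, m u * G u u)
    (hen : r * ∑ u, m u * G u u ≤ ∑ v, m v * (T fun u => G u v) v) :
    (∑ u, m u * G u u) ^ 2 * ((r ^ (2 * S)) ^ 2 / 64 * (Fintype.card W : ℝ) ^ (-q))
      ≤ ∑ u, ∑ v, m u * m v * (G u v) ^ 2 := by
  set a : ℝ := ∑ u, m u * G u u with had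
  have hM1 : (0 : ℝ) < (M : ℝ) - 1 := by
    have : (2 : ℝ) ≤ M := by exact_mod_cast hM
    linarith
  set δ : ℝ := (1 - κ) ^ (S + S) with hδ
  have hδ0 : 0 ≤ δ := pow_nonneg (by linarith) _
  have hδ1 : δ ≤ 1 := hS.trans hq1
  have hM : 0 < vol m univ := sum_pos (fun u _ => h.pos u) univ_nonempty
  have l1 : a * r ^ (2 * S) / 8 ≤ co m T G (S + S) := by
    have h1 := seq_lower (co m T G) a (1 - r) ((M : ℝ) - 1) S hpos (by linarith) (by linarith) hM1
      (co_zero h G) (by rw [sub_sub_cancel, co_one h]; exact hen)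
      (fun i j α β hα hβ => by
        have h2 := conv h G M ‹_› hG hG0 hGs i j α β hα hβ
        rw [co_zero h G] at h2
        exact h2) hS1 (by rw [sub_sub_cancel]; exact hMS)
    rw [sub_sub_cancel] at h1
    exact h1
  have hc0 : 0 ≤ a * r ^ (2 * S) / 8 := by positivity
  have l2 : (co m T G (S + S)) ^ 2 ≤
      (∑ u, ∑ v, m u * m v * Hk m T (S + S) v u ^ 2) * ∑ u, ∑ v, m u * m v * G u v ^ 2 := by
    have h1 := Finset.sum_sq_le_sum_mul_sum_of_sq_le_mul ((univ : Finset W) ×ˢ (univ : Finset W))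
      (r := fun p => m p.1 * m p.2 * Hk m T (S + S) p.2 p.1 * G p.1 p.2)
      (f := fun p => m p.1 * m p.2 * Hk m T (S + S) p.2 p.1 ^ 2)
      (g := fun p => m p.1 * m p.2 * G p.1 p.2 ^ 2)
      (fun p _ => mul_nonneg (mul_nonneg (h.pos _).le (h.pos _).le) (sq_nonneg _))
      (fun p _ => mul_nonneg (mul_nonneg (h.pos _).le (h.pos _).le) (sq_nonneg _))
      (fun p _ => le_of_eq (by ring))
    rwa [sum_product, sum_product, sum_product] at h1
  have hn : (1 : ℝ) ≤ (Fintype.card W : ℝ) := by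
    exact_mod_cast Fintype.card_pos
  have l3 : ∑ u, ∑ v, m u * m v * Hk m T (S + S) v u ^ 2 ≤ (Fintype.card W : ℝ) ^ q := by
    rw [sum_comm]
    have h1 : ∀ v ∈ (univ : Finset W), ∑ u, m u * m v * Hk m T (S + S) v u ^ 2 ≤
        m v * (1 / vol m univ * (vol m univ / m v) ^ δ) := by
      intro v _
      have e : ∑ u, m u * m v * Hk m T (S + S) v u ^ 2 =
          m v * ip m (T^[S + S] (dl m v)) (T^[S + S] (dl m v)) := by
        unfold ip
        rw [mul_sum]
        apply sum_congr rfl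
        intro u _
        unfold Hk
        ring
      rw [e]
      exact mul_le_mul_of_nonneg_left (decay h κ hκ hκ1 hH v (S + S)) (h.pos v).le
    refine (sum_le_sum h1).trans ?_
    have h2 := T_SQ W m δ h.pos hδ0 hδ1
    have h3 : ∑ v, m v * (1 / vol m univ * (vol m univ / m v) ^ δ) =
        (∑ v, m v * (4 / vol m univ * (vol m univ / m v) ^ δ)) / 4 := by
      rw [sum_div]
      refine sum_congr rfl fun v _ => ?_
      ring
    rw [h3]
    have h4 : (Fintype.card W : ℝ) ^ δ ≤ (Fintype.card W : ℝ) ^ q :=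
      Real.rpow_le_rpow_of_exponent_le hn hS
    linarith
  set Q : ℝ := ∑ u, ∑ v, m u * m v * G u v ^ 2 with hQ
  have hQ0 : 0 ≤ Q := sum_nonneg fun u _ => sum_nonneg fun v _ =>
    mul_nonneg (mul_nonneg (h.pos _).le (h.pos _).le) (sq_nonneg _)
  have l4 : (a * r ^ (2 * S) / 8) ^ 2 ≤ (Fintype.card W : ℝ) ^ q * Q :=
    (pow_le_pow_left₀ hc0 l1 2).trans (l2.trans (mul_le_mul_of_nonneg_right l3 hQ0))
  have hp : 0 < (Fintype.card W : ℝ) ^ q := Real.rpow_pos_of_pos (by linarith) _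
  have hpn : (Fintype.card W : ℝ) ^ (-q) * (Fintype.card W : ℝ) ^ q = 1 := by
    rw [← Real.rpow_add (by linarith), neg_add_cancel, Real.rpow_zero]
  refine le_of_mul_le_mul_right ?_ hp
  calc a ^ 2 * ((r ^ (2 * S)) ^ 2 / 64 * (Fintype.card W : ℝ) ^ (-q)) * (Fintype.card W : ℝ) ^ q
      = (a * r ^ (2 * S) / 8) ^ 2 *
        ((Fintype.card W : ℝ) ^ (-q) * (Fintype.card W : ℝ) ^ q) := by ring
    _ = (a * r ^ (2 * S) / 8) ^ 2 := by rw [hpn, mul_one]
    _ ≤ (Fintype.card W : ℝ) ^ q * Q := l4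
    _ = Q * (Fintype.card W : ℝ) ^ q := by ring

/-- global correlation property for kernels which are positive semidefinite on samples -/
def GCM {V : Type} [Fintype V] (K : V → V → ℝ) (m : V → ℝ) (M : ℕ) (r g : ℝ) : Prop :=
  ∀ G : V → V → ℝ, PsdM M G → (∀ u, 0 ≤ G u u) → (∀ u v, G u v = G v u) →
    0 < ∑ u, m u * G u u → r * ∑ u, m u * G u u ≤ ∑ u, ∑ v, K u v * G u v →
    (∑ u, m u * G u u) ^ 2 * g ≤ ∑ u, ∑ v, m u * m v * (G u v) ^ 2

open Classical in
/-- global correlation, zero masses allowed -/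
theorem gcz0 {V : Type} [Fintype V] (K : V → V → ℝ) (hK : IsKer K) (m : V → ℝ)
    (hd : ∀ u, ∑ v, K u v = m u) (κ r q : ℝ) (n : ℕ) (hκ : 0 < κ) (hκ1 : κ < 1)
    (hr : 0 < r) (hr1 : r ≤ 1) (hq1 : q ≤ 1)
    (hn : (univ.filter fun v => 0 < m v).card ≤ n)
    (hH : ∀ g : V → ℝ, (∀ u, 0 ≤ g u) → bil K g g ≤
      (∑ u, m u) ^ (-κ) * (∑ u, m u * g u ^ (2 / (1 + κ))) ^ (1 + κ))
    (M : ℕ) (hM : 2 ≤ M) (S : ℕ) (hS1 : 1 ≤ S)
    (hS : (1 - κ) ^ (S + S) ≤ q) (hMS : 32 * (S : ℝ) ^ 2 ≤ ((M : ℝ) - 1) * r ^ (2 * S)) :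
    GCM K m M r ((r ^ (2 * S)) ^ 2 / 64 * (n : ℝ) ^ (-q)) := by
  intro G hG hG0 hGs hpos hen
  have hq : 0 < q := lt_of_lt_of_le (pow_pos (by linarith) _) hS
  have hm : ∀ u, 0 ≤ m u := fun u => by rw [← hd]; exact sum_nonneg fun v _ => hK.nonneg u v
  have h0 : ∀ u, m u = 0 → ∀ v, K u v = 0 := fun u hu v => by
    rw [← hd] at hu
    exact (sum_eq_zero_iff_of_nonneg fun v _ => hK.nonneg u v).1 hu v (mem_univ v)
  have h0' : ∀ u v, m v = 0 → K u v = 0 := fun u v hv => by rw [hK.symm, h0 v hv]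
  set W := {v // 0 < m v} with hWd
  set K' : W → W → ℝ := fun u v => K u.1 v.1 with hK'
  set m' : W → ℝ := fun u => m u.1 with hm'
  have ext0 : ∀ (g : W → ℝ), ∃ e : V → ℝ, (∀ u : W, e u.1 = g u) ∧
      ((∀ u, 0 ≤ g u) → ∀ v, 0 ≤ e v) := by
    intro g
    refine ⟨fun v => if hv : 0 < m v then g ⟨v, hv⟩ else 0, fun u => ?_, fun hg v => ?_⟩
    · simp only [dif_pos u.2]
      rfl
    · simp only
      split_ifs
      · exact hg _
      · exact le_rfl
  have hbil : ∀ (f g : V → ℝ), bil K f g = bil K' (fun u => f u.1) (fun u => g u.1) := by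
    intro f g
    unfold bil
    exact GCFL.red2 m hm (fun u v => K u v * (f u * g v)) (fun u v hu => by simp [h0 u hu v])
      (fun u v hv => by simp [h0' u v hv])
  have hKer : IsKer K' := by
    refine ⟨fun u v => hK.nonneg _ _, fun u v => hK.symm _ _, fun f => ?_⟩
    obtain ⟨e, he, -⟩ := ext0 f
    have h1 := hK.psd e
    rw [hbil] at h1
    simp only [he] at h1
    exact h1
  have hdW : ∀ u : W, ∑ v, K' u v = m' u := by
    intro u
    have h1 := GCFL.red m hm (fun v => K u.1 v) (fun v hv => h0' _ _ hv)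
    rw [hd] at h1
    exact h1.symm
  have hop := isOper hKer m' (fun u => u.2) hdW
  have e1 : ∑ u, m u * G u u = ∑ u : W, m' u * G u.1 u.1 :=
    GCFL.red m hm (fun u => m u * G u u) (fun v hv => by simp [hv])
  have hne : Nonempty W := by
    by_contra hemp
    rw [not_nonempty_iff] at hemp
    rw [e1, Fintype.sum_empty] at hpos
    exact lt_irrefl _ hpos
  have hvol : vol m' univ = ∑ u, m u :=
    (GCFL.red m hm (fun v => m v) (fun v hv => hv)).symm
  have hH' : ∀ g : W → ℝ, (∀ u, 0 ≤ g u) → ip m' g (ch K' m' g) ≤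
      (vol m' univ) ^ (-κ) * (∑ u, m' u * g u ^ (2 / (1 + κ))) ^ (1 + κ) := by
    intro g hg
    obtain ⟨e, he, he0⟩ := ext0 g
    have h1 := hH e (he0 hg)
    rw [hbil, GCFL.red m hm (fun u => m u * e u ^ (2 / (1 + κ))) (fun v hv => by simp [hv])] at h1
    simp only [he] at h1
    rw [ip_ch m' (fun u => u.2), hvol]
    exact h1
  have e2 : ∑ u, ∑ v, K u v * G u v = ∑ u : W, ∑ v : W, K' u v * G u.1 v.1 :=
    GCFL.red2 m hm (fun u v => K u v * G u v) (fun u v hu => by simp [h0 u hu v])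
      (fun u v hv => by simp [h0' u v hv])
  have e3 : ∑ u, ∑ v, m u * m v * (G u v) ^ 2 =
      ∑ u : W, ∑ v : W, m' u * m' v * (G u.1 v.1) ^ 2 :=
    GCFL.red2 m hm (fun u v => m u * m v * (G u v) ^ 2) (fun u v hu => by simp [hu])
      (fun u v hv => by simp [hv])
  have e4 : ∑ v : W, m' v * (ch K' m' (fun u => G u.1 v.1)) v =
      ∑ u : W, ∑ v : W, K' u v * G u.1 v.1 := by
    refine sum_congr rfl fun v _ => ?_
    unfold ch
    have := (v.2 : 0 < m' v).ne'
    rw [mul_div_cancel₀ _ this]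
    refine sum_congr rfl fun u _ => ?_
    show K' v u * G u.1 v.1 = K' v u * G v.1 u.1
    rw [hGs u.1 v.1]
  have h := gcz hop κ r q hκ hκ1 hr hr1 hq1 hH' (fun u v => G u.1 v.1) hne M hM
    (fun σ a => hG (fun i => (σ i).1) a) (fun u => hG0 u.1) (fun u v => hGs u.1 v.1) S hS1 hS hMS
    (by rw [← e1]; exact hpos) (by rw [← e1, e4, ← e2]; exact hen)
  rw [← e1] at h
  rw [e3]
  refine le_trans ?_ h
  refine mul_le_mul_of_nonneg_left ?_ (sq_nonneg _)
  refine mul_le_mul_of_nonneg_left ?_ (by positivity)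
  have hc : Fintype.card W ≤ n := by
    have h9 : Fintype.card W = (univ.filter fun v => 0 < m v).card :=
      Fintype.card_subtype (fun v => 0 < m v)
    rw [h9]
    exact hn
  have hc1 : 1 ≤ Fintype.card W := Fintype.card_pos
  refine Real.rpow_le_rpow_of_nonpos ?_ ?_ (by linarith)
  · exact_mod_cast hc1
  · exact_mod_cast hc

end Run7.h715.DS
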