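import Pool.Agent.Run7.h715.DS.Chain
import Pool.Agent.TH522.DG.Round
import Pool.Agent.Run7.h881.SA.Sherali

/-!
Conditioning of a Sherali-Adams functional until the labels of the pairs of edges are correlated
already for independent labels.
-/

set_option autoImplicit false
set_option linter.unusedSectionVars false

namespace Run7.h715.DS

open Finset Pool.Agent.H647R3.UG Pool.Agent.H573R3.SL Pool.Agent.TH522.US Pool.Agent.TH522.DG
open Pool.Agent.TH522.UG (Dep)
open Run7.h881.SA (PsdM SA FctS hier_sa vr_bounds)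

section
variable {Z A E B : Type} [Fintype Z] [DecidableEq Z] [Fintype A] [DecidableEq A] [Fintype E]
  [DecidableEq B]

theorem kr_le_one {M : ℕ} {L : ((Z → A) → ℝ) →ₗ[ℝ] ℝ} (hL : FctS M L) (u v : Z) :
    kr L u v ≤ 1 := by
  obtain ⟨h1, h2, h3, h4⟩ := T_RD A (pr2 L u v) (pr L u) (pr L v) (hL.law u v)
  have h5 : kr L u v = ker (pr2 L u v) (pr L u) (pr L v) := rfl
  rw [← h5] at h1 h2
  linarith

theorem kr_nonneg {M : ℕ} {L : ((Z → A) → ℝ) →ₗ[ℝ] ℝ} (hL : FctS M L) (u v : Z) :
    0 ≤ kr L u v := by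
  obtain ⟨h1, h2, h3, h4⟩ := T_RD A (pr2 L u v) (pr L u) (pr L v) (hL.law u v)
  exact h1

theorem kr_symm {M : ℕ} {L : ((Z → A) → ℝ) →ₗ[ℝ] ℝ} (hL : FctS M L) (u v : Z) :
    kr L u v = kr L v u := by
  unfold kr ker
  rw [sum_comm]
  refine sum_congr rfl fun a _ => sum_congr rfl fun b _ => ?_
  rw [hL.symm u v b a, mul_comm (pr L u b)]

theorem phiM_bounds (m : Z → ℝ) (hm : ∀ v, 0 ≤ m v) {M : ℕ} {L : ((Z → A) → ℝ) →ₗ[ℝ] ℝ}
    (hL : FctS M L) : 0 ≤ PhiM m L ∧ PhiM m L ≤ ∑ v, m v := by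
  constructor
  · exact sum_nonneg fun v _ => mul_nonneg (hm v) (vr_bounds hL v).1
  · refine sum_le_sum fun v _ => ?_
    have := (vr_bounds hL v).2
    have := hm v
    nlinarith

/-- averages of bounded functions of two labels under conditioning -/
theorem avg2 {k : ℕ} {L : ((Z → A) → ℝ) →ₗ[ℝ] ℝ} (hL : SA (k + 3) L) (u v w : Z) (b b' : A) :
    ∑ a, pr L u a * pr2 (cnd L u a) v w b b' = pr2 L v w b b' := by
  have h1 : ∀ a, pr L u a * pr2 (cnd L u a) v w b b' =
      L (fun x => ind u a x * (ind v b x * ind w b' x)) := by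
    intro a
    show pr L u a * (L (fun x => ind u a x * (ind v b x * ind w b' x)) / pr L u a) = _
    by_cases ha : pr L u a = 0
    · rw [ha, zero_mul]
      have hS : ({u, v, w} : Finset Z).card ≤ k + 3 := card_le_three.trans (by omega)
      have hd1 : Dep {u, v, w} (fun x : Z → A => ind u a x * (ind v b x * ind w b' x)) :=
        Pool.Agent.TH522.UG.Mx.dep_mul (Pool.Agent.TH522.UG.Mx.dep_ind u a _ (by simp))
          (Pool.Agent.TH522.UG.Mx.dep_mul (Pool.Agent.TH522.UG.Mx.dep_ind v b _ (by simp))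
            (Pool.Agent.TH522.UG.Mx.dep_ind w b' _ (by simp)))
      have h0 : ∀ x : Z → A, 0 ≤ ind v b x * ind w b' x := fun x =>
        mul_nonneg (Pool.Agent.TH522.UG.Mx.ind_nonneg _ _ _)
          (Pool.Agent.TH522.UG.Mx.ind_nonneg _ _ _)
      have h2 : 0 ≤ L (fun x => ind u a x * (ind v b x * ind w b' x)) :=
        hL.nonneg {u, v, w} hS _ hd1 fun x =>
          mul_nonneg (Pool.Agent.TH522.UG.Mx.ind_nonneg u a x) (h0 x)
      have h3 : 0 ≤ L (fun x => ind u a x - ind u a x * (ind v b x * ind w b' x)) := by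
        refine hL.nonneg {u, v, w} hS _ ?_ fun x => ?_
        · intro x y h
          have d1 := hd1 x y h
          have d2 := Pool.Agent.TH522.UG.Mx.dep_ind u a {u, v, w} (by simp) x y h
          simp only at d1
          show ind u a x - ind u a x * (ind v b x * ind w b' x) = _
          rw [d1, d2]
        · have h4 : ind v b x * ind w b' x ≤ 1 :=
            mul_le_one₀ (Pool.Agent.TH522.UG.Mx.ind_le_one _ _ _)
              (Pool.Agent.TH522.UG.Mx.ind_nonneg _ _ _) (Pool.Agent.TH522.UG.Mx.ind_le_one _ _ _)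
          have := mul_le_mul_of_nonneg_left h4 (Pool.Agent.TH522.UG.Mx.ind_nonneg u a x)
          linarith
      have h4 : (fun x : Z → A => ind u a x - ind u a x * (ind v b x * ind w b' x)) =
          ind u a - fun x => ind u a x * (ind v b x * ind w b' x) := rfl
      rw [h4, map_sub] at h3
      have h5 : L (ind u a) = 0 := ha
      linarith
    · rw [mul_div_cancel₀ _ ha]
  simp only [h1]
  rw [← map_sum]
  unfold pr2
  congr 1
  funext x
  rw [Finset.sum_apply, ← Finset.sum_mul, FB.sum_ind, one_mul]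

theorem satF_avg {k : ℕ} {L : ((Z → A) → ℝ) →ₗ[ℝ] ℝ} (hL : SA (k + 3) L) (s t : E → Z)
    (π : E → A → B) (ω : E → ℝ) (F : Z → ℝ) (u : Z) :
    ∑ a, pr L u a * SatF s t π ω F (cnd L u a) = SatF s t π ω F L := by
  have h1 : ∀ e e', rl (π e) (π e') (pr2 L (s e) (s e')) =
      ∑ a, pr L u a * rl (π e) (π e') (pr2 (cnd L u a) (s e) (s e')) := by
    intro e e'
    unfold rl
    have h2 : ∀ a b, (if π e a = π e' b then pr2 L (s e) (s e') a b else 0) =
        ∑ c, pr L u c * (if π e a = π e' b then pr2 (cnd L u c) (s e) (s e') a b else 0) := by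
      intro a b
      by_cases h : π e a = π e' b
      · simp only [if_pos h]
        exact (avg2 hL u _ _ a b).symm
      · simp [h]
    simp only [h2, mul_sum]
    rw [sum_comm]
    conv_rhs => rw [sum_comm]
    rw [sum_comm]
    refine sum_congr rfl fun a _ => ?_
    rw [sum_comm]
  unfold SatF PS
  simp only [h1, mul_sum]
  rw [sum_comm]
  refine sum_congr rfl fun e _ => ?_
  rw [sum_comm]
  refine sum_congr rfl fun e' _ => ?_
  refine sum_congr rfl fun a _ => ?_
  ring

/-- one conditioning step -/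
theorem s1z (s t : E → Z) (π : E → A → B) (d : ℕ) (hd : 0 < d) (hfib : ∀ e, Fib d (π e))
    (ω : E → ℝ) (hω : ∀ e, 0 ≤ ω e) (F : Z → ℝ) (hF : ∀ v, 0 ≤ F v) (N : ℕ) (hN : 2 ≤ N)
    (L : ((Z → A) → ℝ) →ₗ[ℝ] ℝ) (hL : FctS N L) (m : Z → ℝ)
    (hm : m = fun u => ∑ v, kf (K2 s t ω) F u v) (θ g : ℝ) (hθ : 0 < θ) (hg : 0 ≤ g)
    (hM : 0 < ∑ v, m v) (hGC : GCM (kf (K2 s t ω) F) m N (θ ^ 2 / d) g)
    (hS : 2 * θ * ∑ v, m v ≤ SatF s t π ω F L)
    (hI : IndF s t π ω F (pr L) ≤ θ * ∑ v, m v) :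
    ∃ u, (θ ^ 2 / d) ^ 2 * g * ∑ v, m v ≤ PhiM m L - ∑ a, pr L u a * PhiM m (cnd L u a) := by
  have hd0 : (0 : ℝ) < d := by exact_mod_cast hd
  have hker := isKer_kf (isKer_K2 s t ω hω) F hF
  have hm0 : ∀ u, 0 ≤ m u := fun u => by
    rw [hm]; exact sum_nonneg fun v _ => hker.nonneg u v
  have hrow : ∀ u, ∑ v, kf (K2 s t ω) F u v = m u := fun u => by rw [hm]
  set M : ℝ := ∑ v, m v with hMd
  set r : ℝ := θ ^ 2 / d with hr
  have hr0 : 0 < r := by positivity
  have hMps : M = PS t ω fun e e' => F (s e) * F (s e') := by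
    rw [hMd, ← bil_K2, hm]
    unfold bil
    refine sum_congr rfl fun u _ => sum_congr rfl fun v _ => rfl
  -- the form of the kernel
  have hbil : ∑ u, ∑ v, kf (K2 s t ω) F u v * kr L u v =
      PS t ω fun e e' => F (s e) * F (s e') * kr L (s e) (s e') := by
    rw [← K2_sum s t ω fun u v => F u * F v * kr L u v]
    unfold kf
    refine sum_congr rfl fun u _ => sum_congr rfl fun v _ => ?_
    ring
  have hlow : r * M ≤ ∑ u, ∑ v, kf (K2 s t ω) F u v * kr L u v := by
    rw [hbil]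
    have h1 : PS t ω (fun e e' => (1 / d) * (2 * θ * (F (s e) * F (s e') *
        rl (π e) (π e') (pr2 L (s e) (s e'))) + (-(2 * θ)) * (F (s e) * F (s e') *
        rl (π e) (π e') (fun a b => pr L (s e) a * pr L (s e') b)) +
        (-θ ^ 2) * (F (s e) * F (s e')))) ≤
        PS t ω (fun e e' => F (s e) * F (s e') * kr L (s e) (s e')) := by
      refine PS_mono t ω hω _ _ fun e e' _ => ?_
      have h2 := rl_ker (hL.law (s e) (s e')) d (π e) (π e') (hfib e) (hfib e')
      have h3 : kr L (s e) (s e') = ker (pr2 L (s e) (s e')) (pr L (s e)) (pr L (s e')) := rfl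
      rw [← h3] at h2
      have h4 := mul_nonneg (hF (s e)) (hF (s e'))
      set X := rl (π e) (π e') (pr2 L (s e) (s e'))
      set Y := rl (π e) (π e') (fun a b => pr L (s e) a * pr L (s e') b)
      have h5 : (1 / d) * (2 * θ * (X - Y) - θ ^ 2) ≤ kr L (s e) (s e') := by
        rw [one_div, inv_mul_le_iff₀ hd0]
        nlinarith [sq_nonneg (X - Y - θ)]
      have h6 := mul_le_mul_of_nonneg_left h5 h4
      linarith
    refine le_trans ?_ h1
    rw [PS_smul, PS_add, PS_add, PS_smul, PS_smul, PS_smul, ← hMps]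
    have h7 : (PS t ω fun e e' => F (s e) * F (s e') * rl (π e) (π e') (pr2 L (s e) (s e'))) =
        SatF s t π ω F L := rfl
    have h8 : (PS t ω fun e e' => F (s e) * F (s e') *
        rl (π e) (π e') (fun a b => pr L (s e) a * pr L (s e') b)) = IndF s t π ω F (pr L) := rfl
    rw [h7, h8, hr, div_mul_eq_mul_div, div_le_iff₀ hd0, one_div, inv_mul_eq_div,
      div_mul_cancel₀ _ hd0.ne']
    nlinarith
  -- masses
  have hTM : ∑ u, m u * kr L u u ≤ M := by
    refine sum_le_sum fun u _ => ?_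
    have := mul_le_mul_of_nonneg_left (kr_le_one hL u u) (hm0 u)
    linarith
  have hpsd2 : ∀ u v, 2 * kr L u v ≤ kr L u u + kr L v v := by
    intro u v
    obtain ⟨N', rfl⟩ : ∃ N', N = N' + 2 := ⟨N - 2, by omega⟩
    have h1 := hL.psd (Fin.cons u fun _ => v)
      (Fin.cons 1 (Fin.cons (-1) fun _ => 0))
    simp only [Fin.sum_univ_succ, Fin.cons_zero, Fin.cons_succ, zero_mul, mul_zero, sum_const_zero,
      add_zero] at h1
    rw [kr_symm hL v u] at h1
    linarith
  have hbi : ∑ u, ∑ v, kf (K2 s t ω) F u v * kr L u v ≤ ∑ u, m u * kr L u u := by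
    have h1 : ∑ u, ∑ v, kf (K2 s t ω) F u v * kr L u v ≤
        ∑ u, ∑ v, kf (K2 s t ω) F u v * ((kr L u u + kr L v v) / 2) :=
      sum_le_sum fun u _ => sum_le_sum fun v _ =>
        mul_le_mul_of_nonneg_left (by linarith [hpsd2 u v]) (hker.nonneg u v)
    refine h1.trans (le_of_eq ?_)
    have h2 : ∑ u, ∑ v, kf (K2 s t ω) F u v * kr L u u = ∑ u, m u * kr L u u := by
      refine sum_congr rfl fun u _ => ?_
      rw [← sum_mul, hrow]
    have h3 : ∑ u, ∑ v, kf (K2 s t ω) F u v * kr L v v = ∑ u, m u * kr L u u := by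
      rw [← h2, sum_comm]
      refine sum_congr rfl fun u _ => sum_congr rfl fun v _ => ?_
      rw [hker.symm]
    calc ∑ u, ∑ v, kf (K2 s t ω) F u v * ((kr L u u + kr L v v) / 2)
        = (∑ u, ∑ v, kf (K2 s t ω) F u v * kr L u u +
            ∑ u, ∑ v, kf (K2 s t ω) F u v * kr L v v) / 2 := by
          rw [← sum_add_distrib, sum_div]
          refine sum_congr rfl fun u _ => ?_
          rw [← sum_add_distrib, sum_div]
          refine sum_congr rfl fun v _ => ?_
          ring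
      _ = _ := by rw [h2, h3]; ring
  have hT2 : r * M ≤ ∑ u, m u * kr L u u := hlow.trans hbi
  have hT0 : 0 < ∑ u, m u * kr L u u := lt_of_lt_of_le (by positivity) hT2
  have hgc := hGC (kr L) hL.psd (fun u => kr_nonneg hL u u) (fun u v => kr_symm hL u v) hT0
    (le_trans (mul_le_mul_of_nonneg_left hTM hr0.le) hlow)
  have hlow2 : r ^ 2 * g * M ^ 2 ≤ ∑ u, ∑ v, m u * m v * (kr L u v) ^ 2 := by
    refine le_trans ?_ hgc
    have h1 : (r * M) ^ 2 ≤ (∑ u, m u * kr L u u) ^ 2 :=
      pow_le_pow_left₀ (by positivity) hT2 2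
    have h2 : r ^ 2 * g * M ^ 2 = (r * M) ^ 2 * g := by ring
    rw [h2]
    exact mul_le_mul_of_nonneg_right h1 hg
  have hdec : ∀ u v, (kr L u v) ^ 2 ≤ (dec L u v + dec L v u) / 2 := by
    intro u v
    obtain ⟨h1, h2, h3, h4⟩ := T_RD A (pr2 L u v) (pr L u) (pr L v) (hL.law u v)
    have e1 : (∑ a, ∑ b, (pr2 L u v a b - pr L u a * pr L v b) ^ 2 / pr L u a) = dec L u v := rfl
    have e2 : (∑ a, ∑ b, (pr2 L u v a b - pr L u a * pr L v b) ^ 2 / pr L v b) = dec L v u := by
      unfold dec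
      rw [sum_comm]
      refine sum_congr rfl fun b _ => sum_congr rfl fun a _ => ?_
      rw [hL.symm u v a b, mul_comm (pr L u a)]
    rw [e1] at h2 h3
    rw [e2] at h2 h4
    have h5 : kr L u v = ker (pr2 L u v) (pr L u) (pr L v) := rfl
    rw [← h5] at h1 h2
    have h6 : kr L u v ≤ 1 := by linarith
    nlinarith
  have hup : ∑ u, ∑ v, m u * m v * (kr L u v) ^ 2 ≤ ∑ u, m u * ∑ v, m v * dec L u v := by
    have h1 : ∑ u, ∑ v, m u * m v * (kr L u v) ^ 2
        ≤ ∑ u, ∑ v, m u * m v * ((dec L u v + dec L v u) / 2) :=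
      sum_le_sum fun u hu => sum_le_sum fun v hv =>
        mul_le_mul_of_nonneg_left (hdec u v) (mul_nonneg (hm0 u) (hm0 v))
    refine h1.trans (le_of_eq ?_)
    have h2 : ∑ u, ∑ v, m u * m v * ((dec L u v + dec L v u) / 2)
        = (∑ u, ∑ v, m u * m v * dec L u v
          + ∑ u, ∑ v, m u * m v * dec L v u) / 2 := by
      rw [← sum_add_distrib, sum_div]
      refine sum_congr rfl fun u _ => ?_
      rw [← sum_add_distrib, sum_div]
      refine sum_congr rfl fun v _ => ?_
      ring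
    have h3 : ∑ u, ∑ v, m u * m v * dec L v u
        = ∑ u, ∑ v, m u * m v * dec L u v := by
      rw [sum_comm]
      refine sum_congr rfl fun u _ => sum_congr rfl fun v _ => ?_
      ring
    rw [h2, h3]
    have h4 : ∑ u, ∑ v, m u * m v * dec L u v = ∑ u, m u * ∑ v, m v * dec L u v := by
      refine sum_congr rfl fun u _ => ?_
      rw [mul_sum]
      exact sum_congr rfl fun v _ => by ring
    rw [h4]
    ring
  have hex : ∃ u, r ^ 2 * g * M ≤ ∑ v, m v * dec L u v := by
    by_contra hcon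
    push Not at hcon
    obtain ⟨u0, -, hu0⟩ : ∃ u ∈ (univ : Finset Z), 0 < m u := by
      apply exists_lt_of_sum_lt (f := fun _ => (0 : ℝ))
      rw [sum_const_zero]
      exact hM
    have h1 : ∑ u, m u * ∑ v, m v * dec L u v < ∑ u, m u * (r ^ 2 * g * M) :=
      sum_lt_sum (fun u _ => mul_le_mul_of_nonneg_left (hcon u).le (hm0 u))
        ⟨u0, mem_univ _, mul_lt_mul_of_pos_left (hcon u0) hu0⟩
    rw [← sum_mul, ← hMd] at h1
    have h2 := hlow2.trans hup
    nlinarith
  obtain ⟨u, hle⟩ := hex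
  refine ⟨u, hle.trans (le_of_eq ?_)⟩
  unfold PhiM
  have h2 : ∑ a, pr L u a * ∑ v, m v * vr (cnd L u a) v
      = ∑ v, m v * ∑ a, pr L u a * vr (cnd L u a) v := by
    simp_rw [mul_sum]
    rw [sum_comm]
    refine sum_congr rfl fun v _ => sum_congr rfl fun a _ => ?_
    ring
  rw [h2, ← sum_sub_distrib]
  refine sum_congr rfl fun v _ => ?_
  rw [hL.fd u v]
  ring

/-- iteration: `c2` is a lower bound for the correlation of the pairs of edges -/
theorem s2z (s t : E → Z) (π : E → A → B) (d : ℕ) (hd : 0 < d) (hfib : ∀ e, Fib d (π e))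
    (ω : E → ℝ) (hω : ∀ e, 0 ≤ ω e) (F : Z → ℝ) (hF : ∀ v, 0 ≤ F v) (N : ℕ) (hN : 2 ≤ N)
    (m : Z → ℝ)
    (hm : m = fun u => ∑ v, kf (K2 s t ω) F u v) (c2 g : ℝ) (hc2 : 0 < c2) (hg : 0 ≤ g)
    (hM : 0 < ∑ v, m v) (hGC : GCM (kf (K2 s t ω) F) m N ((c2 / 4) ^ 2 / d) g) (k : ℕ)
    (hk : 1 ≤ k * (c2 / 2 * (((c2 / 4) ^ 2 / d) ^ 2 * g)))
    (L : ((Z → A) → ℝ) →ₗ[ℝ] ℝ) (hL : SA (k + (N + 2)) L)
    (hS : c2 * ∑ v, m v ≤ SatF s t π ω F L) :
    ∃ L' : ((Z → A) → ℝ) →ₗ[ℝ] ℝ, SA (0 + (N + 2)) L' ∧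
      c2 / 4 * ∑ v, m v ≤ IndF s t π ω F (pr L') := by
  have hier := hier_sa Z A N
  set M := ∑ v, m v with hMdef
  set Δ := ((c2 / 4) ^ 2 / d) ^ 2 * g with hΔ
  have hd0 : (0 : ℝ) < d := by exact_mod_cast hd
  have hΔ0 : 0 ≤ Δ := by positivity
  have hker := isKer_kf (isKer_K2 s t ω hω) F hF
  have hm0 : ∀ u, 0 ≤ m u := fun u => by
    rw [hm]; exact sum_nonneg fun v _ => hker.nonneg u v
  have hMps : M = PS t ω fun e e' => F (s e) * F (s e') := by
    rw [hMdef, ← bil_K2, hm]
    unfold bil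
    refine sum_congr rfl fun u _ => sum_congr rfl fun v _ => rfl
  have hsat1 : ∀ L : ((Z → A) → ℝ) →ₗ[ℝ] ℝ, FctS N L → SatF s t π ω F L ≤ M := by
    intro L hL
    rw [hMps]
    refine PS_mono t ω hω _ _ fun e e' _ => ?_
    have := mul_le_mul_of_nonneg_left (rl_le_one (hL.law (s e) (s e')) (π e) (π e'))
      (mul_nonneg (hF (s e)) (hF (s e')))
    linarith
  have key : ∀ k' : ℕ, ∀ (L : ((Z → A) → ℝ) →ₗ[ℝ] ℝ), SA (k' + (N + 2)) L →
      c2 / 2 * PhiM m L - SatF s t π ω F L < (k' * (c2 / 2 * Δ) - 1) * M →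
      c2 / 2 * PhiM m L - SatF s t π ω F L ≤ -(c2 / 2) * M →
      ∃ L' : ((Z → A) → ℝ) →ₗ[ℝ] ℝ, SA (0 + (N + 2)) L' ∧
        c2 / 4 * M ≤ IndF s t π ω F (pr L') := by
    intro k'
    induction k' with
    | zero =>
      intro L hL h2 h3
      have hfc := hier.fct _ _ hL
      obtain ⟨hp0, hp1⟩ := phiM_bounds m hm0 hfc
      have h4 := hsat1 L hfc
      have h5 : 0 ≤ c2 / 2 * PhiM m L := by positivity
      push_cast at h2
      exfalso
      linarith
    | succ k' ih =>
      intro L hL h2 h3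
      have hfc := hier.fct _ _ hL
      obtain ⟨hp0, hp1⟩ := phiM_bounds m hm0 hfc
      rcases le_total (c2 / 4 * M) (IndF s t π ω F (pr L)) with hc | hc
      · exact ⟨L, hier.mono' L 0 (k' + 1) (by rw [Nat.zero_add]; exact hL), hc⟩
      · have hS' : 2 * (c2 / 4) * M ≤ SatF s t π ω F L := by
          have : 0 ≤ c2 / 2 * PhiM m L := by positivity
          linarith
        obtain ⟨u, hle⟩ := s1z s t π d hd hfib ω hω F hF N hN L hfc m hm (c2 / 4) g
          (by positivity) hg hM hGC hS' hc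
        rw [← hΔ, ← hMdef] at hle
        have hpr0 := hfc.nn
        have hone : ∑ a, pr L u a = 1 := (hfc.law u u).one
        have havg := satF_avg (k := k' + N) (L := L) (by
          have e : k' + N + 3 = k' + 1 + (N + 2) := by omega
          rw [e]; exact hL) s t π ω F u
        have hex : ∃ a, 0 < pr L u a ∧
            c2 / 2 * PhiM m (cnd L u a) - SatF s t π ω F (cnd L u a)
              ≤ c2 / 2 * PhiM m L - SatF s t π ω F L - c2 / 2 * Δ * M := by
          by_contra hne
          push Not at hne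
          have hs : ∑ a, pr L u a * (c2 / 2 * PhiM m (cnd L u a) - SatF s t π ω F (cnd L u a))
              ≤ c2 / 2 * PhiM m L - SatF s t π ω F L - c2 / 2 * Δ * M := by
            have e2 : ∑ a, pr L u a * (c2 / 2 * PhiM m (cnd L u a)
              - SatF s t π ω F (cnd L u a))
              = c2 / 2 * (∑ a, pr L u a * PhiM m (cnd L u a)) - SatF s t π ω F L := by
              rw [← havg, mul_sum, ← sum_sub_distrib]
              refine sum_congr rfl fun a _ => ?_
              ring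
            rw [e2]
            have := mul_le_mul_of_nonneg_left hle (by positivity : 0 ≤ c2 / 2)
            linarith
          have hpos' : ∃ a, 0 < pr L u a := by
            by_contra hno
            push Not at hno
            have : ∑ a, pr L u a ≤ 0 := sum_nonpos fun a _ => hno a
            linarith
          obtain ⟨a0, ha0⟩ := hpos'
          have hlt : ∑ a, pr L u a * (c2 / 2 * PhiM m L - SatF s t π ω F L - c2 / 2 * Δ * M)
              < ∑ a, pr L u a * (c2 / 2 * PhiM m (cnd L u a) - SatF s t π ω F (cnd L u a)) := by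
            apply sum_lt_sum
            · intro a _
              rcases (hpr0 u a).lt_or_eq with h | h
              · exact mul_le_mul_of_nonneg_left (hne a h).le h.le
              · rw [← h, zero_mul, zero_mul]
            · exact ⟨a0, mem_univ _, mul_lt_mul_of_pos_left (hne a0 ha0) ha0⟩
          rw [← sum_mul, hone, one_mul] at hlt
          linarith
        obtain ⟨a, ha, hle2⟩ := hex
        have hL' := hier.step k' L hL u a ha
        refine ih (cnd L u a) hL' ?_ ?_
        · push_cast at h2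
          linarith
        · have : 0 ≤ c2 / 2 * Δ * M := by positivity
          linarith
  have hfc := hier.fct _ _ hL
  obtain ⟨hp0, hp1⟩ := phiM_bounds m hm0 hfc
  have h1 : c2 / 2 * PhiM m L ≤ c2 / 2 * M := mul_le_mul_of_nonneg_left hp1 (by positivity)
  have h2 : 1 * M ≤ k * (c2 / 2 * Δ) * M := mul_le_mul_of_nonneg_right hk hM.le
  have h3 : 0 < c2 * M := by positivity
  exact key k L hL (by linarith) (by linarith)

end

end Run7.h715.DS
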