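import Pool.Agent.Run7.h715.DS.Round
import Pool.Agent.TH522.DG.Hier

/-!
The Sherali-Adams hierarchy for games with two sides, and the correlation of pairs of edges,
obtained by sampling the edges at a vertex.
-/

set_option autoImplicit false
set_option linter.unusedSectionVars false

namespace Run7.h715.DS

open Finset Pool.Agent.H647R3.UG Pool.Agent.H573R3.SL Pool.Agent.TH522.US Pool.Agent.TH522.DG
open Pool.Agent.TH522.UG (Dep)
open Run7.h881.SA (PsdM SA samp)

/-- `k` levels of the Sherali-Adams linear programming hierarchy for a game with two sides: `L`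
(the linear extension of an expectation of the functions of at most `k` labels) is normalised and
nonnegative on the nonnegative functions of at most `k` labels. -/
structure SA2 {V W A B : Type} (k : ℕ) (L : ((W → A) × (V → B) → ℝ) →ₗ[ℝ] ℝ) : Prop where
  one : L (fun _ => 1) = 1
  nonneg : ∀ (S : Finset W) (T : Finset V), S.card + T.card ≤ k →
    ∀ f : (W → A) × (V → B) → ℝ, Dep2 S T f → (∀ z, 0 ≤ f z) → 0 ≤ L f

theorem SA2.mono {V W A B : Type} {k k' : ℕ} {L : ((W → A) × (V → B) → ℝ) →ₗ[ℝ] ℝ}
    (hL : SA2 k L) (h : k' ≤ k) : SA2 k' L :=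
  ⟨hL.one, fun S T hST => hL.nonneg S T (hST.trans h)⟩

section
variable {V W A B E : Type} [Fintype V] [Fintype W]

theorem pj_sa (a0 : A) (k : ℕ) (L : ((W → A) × (V → B) → ℝ) →ₗ[ℝ] ℝ) (hL : SA2 k L) :
    SA k (pj a0 L) := by
  have hdep : ∀ (S : Finset (W ⊕ V)) (f : (W ⊕ V → A) → ℝ), Dep S f →
      Dep2 S.toLeft (∅ : Finset V) fun z : (W → A) × (V → B) =>
        f (Sum.elim z.1 fun _ => a0) := by
    intro S f hf z z' h1 _
    refine hf _ _ fun v hv => ?_
    rcases v with v | v
    · simp only [Sum.elim_inl]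
      exact h1 v (mem_toLeft.2 hv)
    · simp only [Sum.elim_inr]
  have hcard : ∀ S : Finset (W ⊕ V), S.toLeft.card + (∅ : Finset V).card ≤ S.card := by
    intro S
    have := S.card_toLeft_add_card_toRight
    rw [card_empty]
    omega
  exact ⟨hL.one, fun S hS f hf hf0 =>
    hL.nonneg S.toLeft ∅ ((hcard S).trans hS) _ (hdep S f hf) fun z => hf0 _⟩

variable [Fintype E] [Fintype A] [DecidableEq A] [Fintype B] [DecidableEq B] [DecidableEq V]
  [DecidableEq W]

/-- the label of the right end of an edge after the projection, or the label of the left vertex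
`v0` -/
def lab (w : E → W) (π : E → A → B) (v0 : V) (z : (W → A) × (V → B)) : Option E → B
  | none => z.2 v0
  | some e => π e (z.1 (w e))

/-- agreement of two labels -/
def agr (w : E → W) (π : E → A → B) (v0 : V) (u u' : Option E) (z : (W → A) × (V → B)) : ℝ :=
  if lab w π v0 z u = lab w π v0 z u' then 1 else 0

omit [Fintype A] [DecidableEq A] in
/-- correlation at one left vertex -/
theorem vertex_corrz (M : ℕ) (hM : 2 ≤ M) (L : ((W → A) × (V → B) → ℝ) →ₗ[ℝ] ℝ)
    (hL : SA2 (M + 1) L) (v : E → V) (w : E → W) (π : E → A → B) (v0 : V) (y : E → ℝ)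
    (hy : ∀ e, 0 ≤ y e) :
    (∑ e, (if v e = v0 then y e else 0) * L (satE v w π e)) ^ 2 -
      4 * (∑ e, if v e = v0 then y e else 0) ^ 2 / ((M : ℝ) - 1) ≤
      ∑ e, ∑ e', (if v e = v0 then y e else 0) * (if v e' = v0 then y e' else 0) *
        L (fun z => if π e (z.1 (w e)) = π e' (z.1 (w e')) then 1 else 0) := by
  classical
  have hM1 : (0 : ℝ) < (M : ℝ) - 1 := by
    have : (2 : ℝ) ≤ M := by exact_mod_cast hM
    linarith
  set y' : E → ℝ := fun e => if v e = v0 then y e else 0 with hy'
  have hy0 : ∀ e, 0 ≤ y' e := fun e => by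
    simp only [hy']; split_ifs; exacts [hy e, le_rfl]
  set X : ℝ := ∑ e, y' e * L (satE v w π e) with hX
  set Y : ℝ := ∑ e, y' e with hY
  set G : Option E → Option E → ℝ := fun u u' => L (agr w π v0 u u') with hG
  have hpsd : PsdM M G := by
    intro σ a
    have h1 : ∑ i, ∑ j, a i * a j * G (σ i) (σ j) =
        L (fun z => ∑ i, ∑ j, a i * a j * agr w π v0 (σ i) (σ j) z) := by
      have e1 : (fun z => ∑ i, ∑ j, a i * a j * agr w π v0 (σ i) (σ j) z) =
          ∑ i, ∑ j, (a i * a j) • agr w π v0 (σ i) (σ j) := by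
        funext z
        simp only [Finset.sum_apply, Pi.smul_apply, smul_eq_mul]
      rw [e1, map_sum]
      refine sum_congr rfl fun i _ => ?_
      rw [map_sum]
      refine sum_congr rfl fun j _ => ?_
      rw [map_smul, smul_eq_mul]
    rw [h1]
    set S : Finset W := univ.biUnion fun i : Fin M => (σ i).elim ∅ fun e => {w e} with hS
    have hSc : S.card ≤ M := by
      refine card_biUnion_le.trans ?_
      calc ∑ i : Fin M, ((σ i).elim (∅ : Finset W) fun e => {w e}).card
          ≤ ∑ _i : Fin M, 1 := sum_le_sum fun i _ => by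
            rcases σ i with _ | e
            · simp
            · simp
        _ = M := by simp
    refine hL.nonneg S {v0} (by rw [card_singleton]; omega) _ ?_ ?_
    · intro z z' h2 h3
      have h4 : ∀ i, lab w π v0 z (σ i) = lab w π v0 z' (σ i) := by
        intro i
        rcases hi : σ i with _ | e
        · exact h3 v0 (mem_singleton_self _)
        · show π e (z.1 (w e)) = π e (z'.1 (w e))
          rw [h2 (w e) (mem_biUnion.2 ⟨i, mem_univ _, by rw [hi]; simp⟩)]
      show ∑ i, ∑ j, a i * a j * agr w π v0 (σ i) (σ j) z =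
        ∑ i, ∑ j, a i * a j * agr w π v0 (σ i) (σ j) z'
      refine sum_congr rfl fun i _ => sum_congr rfl fun j _ => ?_
      unfold agr
      rw [h4 i, h4 j]
    · intro z
      have h2 : ∑ i, ∑ j, a i * a j * agr w π v0 (σ i) (σ j) z =
          ∑ b : B, (∑ i, if lab w π v0 z (σ i) = b then a i else 0) ^ 2 := by
        have h3 : ∀ b : B, (∑ i, if lab w π v0 z (σ i) = b then a i else 0) ^ 2 =
            ∑ i, ∑ j, (if lab w π v0 z (σ i) = b then a i else 0) *
              (if lab w π v0 z (σ j) = b then a j else 0) := fun b => by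
          rw [sq, sum_mul_sum]
        symm
        rw [sum_congr rfl fun b _ => h3 b, sum_comm]
        refine sum_congr rfl fun i _ => ?_
        rw [sum_comm]
        refine sum_congr rfl fun j _ => ?_
        have h4 : ∀ b, (if lab w π v0 z (σ i) = b then a i else 0) *
              (if lab w π v0 z (σ j) = b then a j else 0) =
              if lab w π v0 z (σ i) = b then (a i * if lab w π v0 z (σ j) = b then a j else 0)
              else 0 := fun b => by split_ifs <;> simp
        rw [sum_congr rfl fun b _ => h4 b, sum_ite_eq, if_pos (mem_univ _)]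
        unfold agr
        by_cases h5 : lab w π v0 z (σ i) = lab w π v0 z (σ j)
        · rw [if_pos h5, if_pos h5.symm, mul_one]
        · rw [if_neg h5, if_neg fun h => h5 h.symm, mul_zero, mul_zero]
      beta_reduce
      rw [h2]
      exact sum_nonneg fun b _ => sq_nonneg _
  have hdiag : ∀ u, G u u = 1 := by
    intro u
    rw [← hL.one]
    simp only [hG]
    congr 1
    funext z
    unfold agr
    rw [if_pos rfl]
  have hsym : ∀ u u', G u u' = G u' u := by
    intro u u'
    simp only [hG]
    congr 1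
    funext z
    unfold agr
    by_cases h5 : lab w π v0 z u = lab w π v0 z u'
    · rw [if_pos h5, if_pos h5.symm]
    · rw [if_neg h5, if_neg fun h => h5 h.symm]
  have hsat : ∀ e, y' e * G (some e) none = y' e * L (satE v w π e) := by
    intro e
    simp only [hy']
    by_cases h : v e = v0
    · rw [if_pos h]
      have h2 : agr w π v0 (some e) none = satE v w π e := by
        funext z
        unfold agr satE
        show (if π e (z.1 (w e)) = z.2 v0 then (1 : ℝ) else 0) = _
        rw [h]
      simp only [hG]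
      rw [h2]
    · rw [if_neg h, zero_mul, zero_mul]
  have hL1 : ∀ e, 0 ≤ L (satE v w π e) ∧ L (satE v w π e) ≤ 1 := by
    intro e
    have hdep : Dep2 {w e} {v e} (satE v w π e) := by
      intro z z' h1 h2
      unfold satE
      rw [h1 _ (mem_singleton_self _), h2 _ (mem_singleton_self _)]
    constructor
    · refine hL.nonneg {w e} {v e} (by simp; omega) _ hdep fun z => ?_
      unfold satE
      split_ifs <;> norm_num
    · have h1 : 0 ≤ L (fun z => 1 - satE v w π e z) := by
        refine hL.nonneg {w e} {v e} (by simp; omega) _ (fun z z' h1 h2 => ?_) fun z => ?_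
        · show 1 - satE v w π e z = 1 - satE v w π e z'
          rw [hdep z z' h1 h2]
        · unfold satE
          split_ifs <;> norm_num
      have h2 : (fun z => 1 - satE v w π e z) = (fun _ => (1 : ℝ)) - satE v w π e := rfl
      rw [h2, map_sub, hL.one] at h1
      linarith
  have hX0 : 0 ≤ X := sum_nonneg fun e _ => mul_nonneg (hy0 e) (hL1 e).1
  have hY0 : 0 ≤ Y := sum_nonneg fun e _ => hy0 e
  have hXY : X ≤ Y := sum_le_sum fun e _ => by
    have := mul_le_mul_of_nonneg_left (hL1 e).2 (hy0 e)
    linarith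
  set F : Option E → ℝ := fun u => u.elim (-X) y' with hF
  have hs := samp G M hM hpsd F
  have h1 : ∑ u, ∑ u', F u * F u' * G u u' =
      (∑ e, ∑ e', y' e * y' e' * G (some e) (some e')) - X ^ 2 := by
    rw [Fintype.sum_option]
    simp only [Fintype.sum_option]
    simp only [hF, Option.elim_none, Option.elim_some]
    rw [sum_add_distrib, hdiag]
    have h2 : ∑ e, -X * y' e * G none (some e) = -X * X := by
      have h3 : ∀ e, -X * y' e * G none (some e) = -X * (y' e * L (satE v w π e)) := by
        intro e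
        rw [hsym, mul_assoc, hsat]
      rw [sum_congr rfl fun e _ => h3 e, ← mul_sum]
    have h3 : ∑ e, y' e * -X * G (some e) none = -X * X := by
      have h3 : ∀ e, y' e * -X * G (some e) none = -X * (y' e * L (satE v w π e)) := by
        intro e
        rw [← hsat]; ring
      rw [sum_congr rfl fun e _ => h3 e, ← mul_sum]
    rw [h2, h3]
    ring
  have h2 : ∑ u, |F u| = X + Y := by
    rw [Fintype.sum_option]
    simp only [hF, Option.elim_none, Option.elim_some]
    rw [abs_neg, abs_of_nonneg hX0, sum_congr rfl fun e _ => abs_of_nonneg (hy0 e)]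
  have h3 : ∑ u, |F u| * G u u = X + Y := by
    rw [← h2]
    exact sum_congr rfl fun u _ => by rw [hdiag, mul_one]
  rw [h1, h2, h3] at hs
  have h4 : ∑ e, ∑ e', y' e * y' e' * G (some e) (some e') = ∑ e, ∑ e', y' e * y' e' *
        L (fun z => if π e (z.1 (w e)) = π e' (z.1 (w e')) then 1 else 0) := rfl
  rw [h4] at hs
  set Q := ∑ e, ∑ e', y' e * y' e' *
        L (fun z => if π e (z.1 (w e)) = π e' (z.1 (w e')) then 1 else 0) with hQ
  have h5 : (X + Y) * (X + Y) ≤ 4 * Y ^ 2 := by nlinarith
  have h6 : X ^ 2 - Q ≤ 4 * Y ^ 2 / ((M : ℝ) - 1) := by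
    rw [le_div_iff₀ hM1]
    nlinarith
  linarith

omit [Fintype V] [Fintype W] [DecidableEq V] [DecidableEq W] [Fintype A] [Fintype B]
  [DecidableEq A] [DecidableEq B] in
/-- a sum over pairs of edges by the common target -/
theorem PS_gen {Z : Type} [Fintype Z] [DecidableEq Z] (t : E → Z) (ω : E → ℝ) (y : E → ℝ)
    (g : E → E → ℝ) :
    PS t ω (fun e e' => y e * y e' * g e e') =
      ∑ τ, (∑ e, ∑ e', (if t e = τ then ω e * y e else 0) * (if t e' = τ then ω e' * y e' else 0) *
        g e e') / bd t ω τ := by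
  simp only [sum_div]
  unfold PS
  symm
  rw [sum_comm]
  refine sum_congr rfl fun e _ => ?_
  rw [sum_comm]
  refine sum_congr rfl fun e' _ => ?_
  have h2 : ∀ v, (if t e = v then ω e * y e else 0) * (if t e' = v then ω e' * y e' else 0) *
        g e e' / bd t ω v = if t e = v then (if t e' = v then
          ω e * y e * (ω e' * y e') * g e e' / bd t ω v else 0) else 0 := by
    intro v
    split_ifs <;> simp
  simp only [h2]
  rw [sum_ite_eq, if_pos (mem_univ _)]
  unfold pw
  by_cases h : t e = t e'
  · rw [if_pos h, if_pos h.symm]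
    ring
  · rw [if_neg h, if_neg fun h' => h h'.symm, zero_mul]

/-- correlation of the pairs of edges -/
theorem pair_corrz (M : ℕ) (hM : 2 ≤ M) (L : ((W → A) × (V → B) → ℝ) →ₗ[ℝ] ℝ)
    (hL : SA2 (M + 1) L)
    (a0 : A) (v : E → V) (w : E → W) (π : E → A → B) (ω : E → ℝ) (hω : ∀ e, 0 ≤ ω e) (c1 : ℝ)
    (hc1 : 0 ≤ c1) (hMc : 8 ≤ c1 ^ 2 * ((M : ℝ) - 1))
    (hsat : ∀ e, 0 < ω e → c1 ≤ L (satE v w π e)) (F : W ⊕ V → ℝ)
    (hF : ∀ z, 0 ≤ F z) :
    c1 ^ 2 / 2 * bil (K2 (fun e => (Sum.inl (w e) : W ⊕ V)) (fun e => Sum.inr (v e)) ω) F F ≤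
      SatF (fun e => (Sum.inl (w e) : W ⊕ V)) (fun e => Sum.inr (v e)) π ω F (pj a0 L) := by
  have hM1 : (0 : ℝ) < (M : ℝ) - 1 := by
    have : (2 : ℝ) ≤ M := by exact_mod_cast hM
    linarith
  set s : E → W ⊕ V := fun e => Sum.inl (w e) with hs
  set t : E → W ⊕ V := fun e => Sum.inr (v e) with ht
  -- the pair terms
  have h1 : ∀ e e', rl (π e) (π e') (pr2 (pj a0 L) (s e) (s e')) =
      L (fun z => if π e (z.1 (w e)) = π e' (z.1 (w e')) then 1 else 0) := by
    intro e e'
    unfold rl
    have h2 : ∀ a a', (if π e a = π e' a' then pr2 (pj a0 L) (s e) (s e') a a' else 0) =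
        L (fun z => if π e a = π e' a' then (if z.1 (w e) = a then 1 else 0) *
          (if z.1 (w e') = a' then 1 else 0) else 0) := by
      intro a a'
      by_cases h : π e a = π e' a'
      · simp only [if_pos h]
        rfl
      · simp only [if_neg h]
        exact (map_zero L).symm
    simp only [h2, ← map_sum]
    congr 1
    funext z
    simp only [Finset.sum_apply]
    rw [sum_eq_single (z.1 (w e))]
    · rw [sum_eq_single (z.1 (w e'))]
      · simp
      · intro a' _ ha'
        simp [Ne.symm ha']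
      · intro h; exact absurd (mem_univ _) h
    · intro a _ ha
      refine sum_eq_zero fun a' _ => ?_
      simp [Ne.symm ha]
    · intro h; exact absurd (mem_univ _) h
  have h2 : SatF s t π ω F (pj a0 L) = ∑ τ, (∑ e, ∑ e', (if t e = τ then ω e * F (s e) else 0) *
      (if t e' = τ then ω e' * F (s e') else 0) *
        L (fun z => if π e (z.1 (w e)) = π e' (z.1 (w e')) then 1 else 0)) / bd t ω τ := by
    rw [← PS_gen t ω (fun e => F (s e))
      (fun e e' => L (fun z => if π e (z.1 (w e)) = π e' (z.1 (w e')) then 1 else 0))]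
    unfold SatF
    simp only [h1]
  rw [h2, bil_K2, PS_sq t ω fun e => F (s e), mul_sum]
  refine sum_le_sum fun τ _ => ?_
  rw [← mul_div_assoc]
  refine div_le_div_of_nonneg_right ?_ (bd_nonneg t ω hω τ)
  rcases τ with w' | v0
  · have h3 : ∀ e, t e ≠ Sum.inl w' := fun e => by simp [ht]
    simp only [h3, if_false, sum_const_zero]
    simp
  · have h3 := vertex_corrz M hM L hL v w π v0 (fun e => ω e * F (s e))
      (fun e => mul_nonneg (hω e) (hF _))
    have h4 : ∀ e, (t e = Sum.inr v0) = (v e = v0) := fun e => by simp [ht]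
    simp only [h4]
    refine le_trans ?_ h3
    set Y : ℝ := ∑ e, (if v e = v0 then ω e * F (s e) else 0) with hY
    have hY0 : 0 ≤ Y := sum_nonneg fun e _ => by
      split_ifs
      · exact mul_nonneg (hω e) (hF _)
      · exact le_rfl
    have h5 : c1 * Y ≤ ∑ e, (if v e = v0 then ω e * F (s e) else 0) * L (satE v w π e) := by
      rw [hY, mul_sum]
      refine sum_le_sum fun e _ => ?_
      by_cases h5 : v e = v0
      · rw [if_pos h5]
        rcases (hω e).eq_or_lt with h6 | h6
        · rw [← h6]; simp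
        · rw [mul_comm]
          exact mul_le_mul_of_nonneg_left (hsat e h6) (mul_nonneg h6.le (hF _))
      · rw [if_neg h5]; simp
    have h6 : (c1 * Y) ^ 2 ≤
        (∑ e, (if v e = v0 then ω e * F (s e) else 0) * L (satE v w π e)) ^ 2 :=
      pow_le_pow_left₀ (mul_nonneg hc1 hY0) h5 2
    have h7 : 4 * Y ^ 2 / ((M : ℝ) - 1) ≤ c1 ^ 2 / 2 * Y ^ 2 := by
      rw [div_le_iff₀ hM1]
      nlinarith [sq_nonneg Y]
    nlinarith

end

end Run7.h715.DS
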